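import Pool.Agent.Y627.LS.Size

/-!
The entire interpolation `f₀` of the `3x+1` function (Letherman, Schleicher, Wood): the Fatou component
of every integer `n` is of size comparable to `1/(|n|+1)` around `n`.
-/

set_option autoImplicit false

open Filter Topology Metric Set

namespace Pool.Agent.Results.MP_071ec9_an.ComponentSize

open Pool.Agent.H384R2.Fatou

/-- The entire function of Letherman, Schleicher and Wood; `f₀ n = T n` for every integer `n`. -/
noncomputable def f₀ (z : ℂ) : ℂ :=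
  z / 2 + (z + 1 / 2) * ((1 - Complex.cos (Real.pi * z)) / 2) +
    1 / Real.pi * (1 / 2 - Complex.cos (Real.pi * z)) * Complex.sin (Real.pi * z)

/-- The `3x+1` function. -/
def T (m : ℤ) : ℤ := if m % 2 = 0 then m / 2 else (3 * m + 1) / 2

/-- There are absolute constants `c, C > 0` such that for every integer `n`:

* the disc of radius `c / (|n| + 1)` around `n` is contained in the Fatou component of `n`, and the orbit
  of each point `z` of this disc follows the trajectory of `n` double exponentially: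
  `|f₀^k(z) - T^k(n)| ≤ 2^(-2^k) / (|T^k(n)| + 1)` for all `k`;
* on both sides of `n` there are real points outside the Fatou set (that is, of the Julia set) at
  distance less than `C / (|n| + 1)` from `n`. -/
theorem result : ∃ c C : ℝ, 0 < c ∧ 0 < C ∧ ∀ n : ℤ,
    (∀ z : ℂ, ‖z - n‖ < c / (|(n : ℝ)| + 1) → z ∈ FatouComponent f₀ n ∧
      ∀ k : ℕ, ‖f₀^[k] z - (T^[k] n : ℤ)‖ ≤ (1 / 2) ^ 2 ^ k / (|((T^[k] n : ℤ) : ℝ)| + 1)) ∧
    (∃ x : ℝ, n - C / (|(n : ℝ)| + 1) < x ∧ x < n ∧ (x : ℂ) ∉ FatouSet f₀) ∧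
    ∃ y : ℝ, n < y ∧ y < n + C / (|(n : ℝ)| + 1) ∧ (y : ℂ) ∉ FatouSet f₀ := by
  obtain ⟨c, hc0, -, hc⟩ := Y627.LS.disc
  obtain ⟨W, hW1, hW⟩ := Y627.LS.traces
  have hf : f₀ = Pool.Agent.H723R2.LSW.f₀ := rfl
  have hT : T = Pool.Agent.H723R2.LSW.T := rfl
  rw [hf, hT]
  refine ⟨c, W + 1, hc0, by linarith, fun n => ?_⟩
  have hn0 : (0 : ℝ) < |(n : ℝ)| + 1 := by positivity
  have hsub := Y627.LS.disc_fatou hc0 hc n
  have hr : 0 < c / (|(n : ℝ)| + 1) := by positivity
  have hnF : (n : ℂ) ∈ FatouSet Pool.Agent.H723R2.LSW.f₀ := hsub (mem_ball_self hr)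
  set s : ℝ := (W + 1/2) / (|(n : ℝ)| + 1) with hs
  have hs0 : 0 < s := by positivity
  have hsC : s < (W + 1) / (|(n : ℝ)| + 1) := by
    rw [hs]
    exact div_lt_div_of_pos_right (by linarith) hn0
  have hsW : W < s * (|(n : ℝ)| + 1) := by
    rw [hs, div_mul_cancel₀ _ hn0.ne']; linarith
  refine ⟨fun z hz => ⟨?_, fun k => ?_⟩, ?_, ?_⟩
  · have h1 : ball (n : ℂ) (c / (|(n : ℝ)| + 1)) ⊆ FatouComponent Pool.Agent.H723R2.LSW.f₀ n := by
      apply IsPreconnected.subset_connectedComponentIn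
      · exact (convex_ball _ _).isPreconnected
      · exact mem_ball_self hr
      · exact hsub
    apply h1
    rw [mem_ball, dist_eq_norm]; exact hz
  · have h1 := hc n z hz.le k
    rw [le_div_iff₀ (by positivity)]
    linarith [mul_comm (|((Pool.Agent.H723R2.LSW.T^[k] n : ℤ) : ℝ)| + 1)
      ‖Pool.Agent.H723R2.LSW.f₀^[k] z - ((Pool.Agent.H723R2.LSW.T^[k] n : ℤ) : ℂ)‖]
  · have h1 : ¬ Y627.LS.Seg n (-s) := by
      intro h
      have := hW n _ h
      rw [abs_neg, abs_of_pos hs0] at this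
      linarith
    unfold Y627.LS.Seg at h1
    push Not at h1
    obtain ⟨x, hx, hxF⟩ := h1
    rw [mem_uIcc] at hx
    have h2 : x ≠ n := by
      rintro rfl
      apply hxF
      simpa using hnF
    rcases hx with ⟨a, b⟩ | ⟨a, b⟩
    · exfalso; linarith
    · exact ⟨x, by linarith, lt_of_le_of_ne b h2, hxF⟩
  · have h1 : ¬ Y627.LS.Seg n s := by
      intro h
      have := hW n _ h
      rw [abs_of_pos hs0] at this
      linarith
    unfold Y627.LS.Seg at h1
    push Not at h1
    obtain ⟨x, hx, hxF⟩ := h1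
    rw [mem_uIcc] at hx
    have h2 : x ≠ n := by
      rintro rfl
      apply hxF
      simpa using hnF
    rcases hx with ⟨a, b⟩ | ⟨a, b⟩
    · exact ⟨x, lt_of_le_of_ne a (Ne.symm h2), by linarith, hxF⟩
    · exfalso; linarith

end Pool.Agent.Results.MP_071ec9_an.ComponentSize
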