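import Mathlib
import Pool.Agent.H723R2.LSWDens
import Pool.Agent.Y964.LW.C5
import Pool.Agent.Y964.LW.C9

set_option autoImplicit false

/-!
Integers in wandering domains and in superattracting basins of the entire interpolation `f₀` of the
`3x+1` function, along sparse multiplicative sets and multiplicative functions.

The sets `E` here have density zero (like the sums of two squares, `E(N) ~ K N / √(log N)`, or the
integers composed of primes from a set of positive relative density). All errors are relative to the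
number of elements of `E`, respectively to the sum of a multiplicative majorant.
-/

namespace Pool.Agent.Results.MP_071ec9_an.WanderingInSemigroups

open Filter Topology Finset
open Pool.Agent.H384R2.Fatou

/-- The entire function of Letherman, Schleicher and Wood; `f₀ n = T n` for every integer `n`, where
`T` is the `3x+1` function. -/
noncomputable def f₀ (z : ℂ) : ℂ :=
  z / 2 + (z + 1 / 2) * ((1 - Complex.cos (Real.pi * z)) / 2) +
    1 / Real.pi * (1 / 2 - Complex.cos (Real.pi * z)) * Complex.sin (Real.pi * z)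

/-- Among the integers of sign `s` the set `S` has natural density `d`. -/
def HasDensity (s : ℤ) (S : Set ℤ) (d : ℝ) : Prop :=
  Tendsto (fun N : ℕ => ({n : ℤ | 0 < s * n ∧ s * n ≤ N ∧ n ∈ S}.ncard : ℝ) / N) atTop (𝓝 d)

/-- The integers whose Fatou component is a wandering domain of `f₀`. -/
def WanderingIntegers : Set ℤ := {n | IsWanderingDomain f₀ (FatouComponent f₀ n)}

/-- The integers `n` in the Fatou set whose component is not a wandering domain and is attracted to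
the cycle of the integer `a`, of period (dividing) `p`: all points `z` of the component satisfy
`f₀^(k+pm)(z) → a` as `m → ∞`, for some `k`. -/
def BasinIntegers (a : ℤ) (p : ℕ) : Set ℤ :=
  {n | (n : ℂ) ∈ FatouSet f₀ ∧ ¬ IsWanderingDomain f₀ (FatouComponent f₀ n) ∧
    ∃ k : ℕ, ∀ z ∈ FatouComponent f₀ n,
      Tendsto (fun m : ℕ => f₀^[k + p * m] z) atTop (𝓝 (a : ℂ))}

/-- The cycles of `f₀` in the integers of sign `s`, each represented by its element of least absolute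
value. -/
def IsCycleRep (s a : ℤ) : Prop :=
  0 < s * a ∧ (∃ p : ℕ, 0 < p ∧ f₀^[p] (a : ℂ) = a) ∧
    ∀ (j : ℕ) (b : ℤ), f₀^[j] (a : ℂ) = b → s * a ≤ s * b

/-- The orbit of the integer `n` under `f₀` visits `a` for the first time at time `k`. -/
def Visits (a : ℤ) (k : ℕ) (n : ℤ) : Prop := f₀^[k] (n : ℂ) = a ∧ ∀ i < k, f₀^[i] (n : ℂ) ≠ a

/-- `2 log |n| / log (4/3) + x * log 3 * √(2 log |n| / (log (4/3))^3)` -/
noncomputable def bound (x : ℝ) (n : ℤ) : ℝ :=
  2 / Real.log (4 / 3) * Real.log |(n : ℝ)| +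
    x * (Real.log 3 * Real.sqrt (2 * Real.log |(n : ℝ)| / Real.log (4 / 3) ^ 3))

/-- The distribution function of the standard normal law. -/
noncomputable def Phi (x : ℝ) : ℝ :=
  ProbabilityTheory.cdf (ProbabilityTheory.gaussianReal 0 1) x

/-- `∑_{p ≤ x} h p ≥ c x / log x` for all `x ≥ x₀` (sum over primes). -/
def PrimeMean (c : ℝ) (x₀ : ℕ) (h : ℕ → ℝ) : Prop :=
  ∀ x : ℕ, x₀ ≤ x → c * (x / Real.log x) ≤ ∑ p ∈ (Icc 1 x).filter Nat.Prime, h p

open scoped Classical in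
/-- THE RELATIVE FREQUENCY of the set `S` among the integers `s n`, `n ≥ 1`, is `l` for all bounded
multiplicative functions of `n` over all multiplicative majorants with many primes: for all `c > 0`,
`x₀`, `ε > 0`, `Q ≥ 1` and `r` prime to `Q` there is `N₀` such that for all `N ≥ N₀`, for all
multiplicative `h` with values in `[0, 1]` and `∑_{p ≤ x} h p ≥ c x / log x` for `x ≥ x₀`, and all
multiplicative `g` with `|g| ≤ h`, the sum of `g n` over the `n ≤ N` with `n ≡ r` modulo `Q` and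
`s n ∈ S` is `l` times the sum over all `n ≤ N` with `n ≡ r` modulo `Q`, up to `ε ∑_{n ≤ N} h n`. -/
def Relative (s : ℤ) (S : Set ℤ) (l : ℝ) : Prop := ∀ (c : ℝ) (x₀ : ℕ) (ε : ℝ) (Q r : ℕ), 0 < c → 0 < ε →
  1 ≤ Q → r.Coprime Q → ∃ N₀ : ℕ, ∀ N : ℕ, N₀ ≤ N → ∀ h : ArithmeticFunction ℝ, h.IsMultiplicative →
    (∀ n, 0 ≤ h n ∧ h n ≤ 1) → PrimeMean c x₀ h →
    ∀ g : ArithmeticFunction ℂ, g.IsMultiplicative → (∀ n, ‖g n‖ ≤ h n) →
    ‖∑ n ∈ (Icc 1 N).filter (fun n => n % Q = r % Q ∧ s * (n : ℤ) ∈ S), g n -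
      l * ∑ n ∈ (Icc 1 N).filter (fun n => n % Q = r % Q), g n‖ ≤ ε * ∑ n ∈ Icc 1 N, h n

/-- `E` contains at least `c x / log x` primes `p ≤ x`, for all `x ≥ x₀`. -/
def ManyPrimes (c : ℝ) (x₀ : ℕ) (E : Set ℕ) : Prop :=
  ∀ x : ℕ, x₀ ≤ x → c * (x / Real.log x) ≤ {p : ℕ | p.Prime ∧ p ≤ x ∧ p ∈ E}.ncard

/-- `E` is a multiplicative set of positive integers: it contains `1`, and the product of coprime
integers is in `E` if and only if both factors are. -/
def MultSet (E : Set ℕ) : Prop :=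
  0 ∉ E ∧ 1 ∈ E ∧ ∀ m n : ℕ, m.Coprime n → (m * n ∈ E ↔ m ∈ E ∧ n ∈ E)

/-- The positive sums of two squares. -/
def TwoSquares : Set ℕ := {n | 1 ≤ n ∧ ∃ x y : ℕ, n = x ^ 2 + y ^ 2}

/-- The positive integers all of whose prime factors are congruent modulo `q` to elements of `A`. -/
def PrimesIn (q : ℕ) (A : Set ℕ) : Set ℕ := {n | 1 ≤ n ∧ ∀ p : ℕ, p.Prime → p ∣ n → ∃ a ∈ A, p % q = a % q}

open Pool.Agent.H723R2.LSW (T Mer Wild cast_iter)

theorem T_Td : T = Pool.Agent.H499R2.ND.Td 1 := rfl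

open Pool.Agent.Y964.LW in
theorem rel_of {s : ℤ} {S : Set ℤ} {l : ℝ} (h : RL (fun n : ℕ => s * (n : ℤ) ∈ S) l) : Relative s S l :=
  RL_full h

/-- relative frequency of an invariant set -/
theorem inv_rel {s : ℤ} (hs : s = 1 ∨ s = -1) {S : Set ℤ} (hS : ∀ n : ℤ, n ∈ S ↔ T n ∈ S) {d : ℝ}
    (h : HasDensity s S d) : Relative s S d :=
  rel_of (Pool.Agent.Y964.LW.RL_inv' hs hS h)

theorem wild_T (x : ℤ) : Wild x ↔ Wild (T x) :=
  ⟨Pool.Agent.H723R2.LSW.wild_mer ⟨1, 0, rfl⟩, Pool.Agent.H723R2.LSW.wild_mer ⟨0, 1, rfl⟩⟩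

theorem mer_T (a x : ℤ) : Mer x a ↔ Mer (T x) a := by
  have h1 : Mer x (T x) := ⟨1, 0, rfl⟩
  exact ⟨fun h => h1.symm.trans h, fun h => h1.trans h⟩

theorem merge_eq (a : ℤ) : {n : ℤ | ∃ i j : ℕ, f₀^[i] (n : ℂ) = f₀^[j] (a : ℂ)} = {n | Mer n a} := by
  ext n
  show (∃ i j : ℕ, Pool.Agent.H723R2.LSW.f₀^[i] (n : ℂ) = Pool.Agent.H723R2.LSW.f₀^[j] (a : ℂ)) ↔ Mer n a
  constructor
  · rintro ⟨i, j, h⟩
    rw [Pool.Agent.H723R2.LSW.f₀_iter, Pool.Agent.H723R2.LSW.f₀_iter] at h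
    exact ⟨i, j, by exact_mod_cast h⟩
  · rintro ⟨i, j, h⟩
    exact ⟨i, j, by rw [Pool.Agent.H723R2.LSW.f₀_iter, Pool.Agent.H723R2.LSW.f₀_iter, h]⟩

theorem log_abs {s : ℤ} (hs : s = 1 ∨ s = -1) (n : ℕ) : Real.log |((s * (n : ℤ) : ℤ) : ℝ)| = Real.log n := by
  rw [Real.log_abs, Pool.Agent.W26.HN.log_side hs]

/-- the visits of a cycle representative -/
theorem visits_rel {s : ℤ} (hs : s = 1 ∨ s = -1) {a : ℤ} (ha : IsCycleRep s a) {d : ℝ}
    (h : HasDensity s {n | Mer n a} d) :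
    (∀ (q : ℕ) (b : ℤ), 1 ≤ q →
      Relative s {n | ∃ k : ℕ, Visits a k n ∧ (k : ℤ) ≡ b [ZMOD q]} (d / q) ∧
      ∀ x : ℝ, Relative s {n | ∃ k : ℕ, Visits a k n ∧ (k : ℝ) ≤ bound x n ∧ (k : ℤ) ≡ b [ZMOD q]}
        (d * WanderingInSemigroups.Phi x / q)) ∧
    (∀ η : ℝ, 0 < η → Relative s {n | ∃ k : ℕ, Visits a k n ∧
      |(k : ℝ) - 2 / Real.log (4 / 3) * Real.log (|(n : ℝ)|)| ≤ η * Real.log |(n : ℝ)|} d) := by
  obtain ⟨ha0, ⟨p, hp, hpa'⟩, hmin'⟩ := ha
  have hpa : T^[p] a = a := cast_iter.1 hpa'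
  have hmin : ∀ j : ℕ, s * a ≤ s * T^[j] a := fun j => hmin' j _ (cast_iter.2 rfl)
  -- the representative is odd
  have hodd : a % 2 = 1 := by
    by_contra hcon
    have h1 : a % 2 = 0 := by omega
    have h2 := hmin 1
    rw [Function.iterate_one] at h2
    have h3 : T a = a / 2 := by
      show (if a % 2 = 0 then a / 2 else (3 * a + 1) / 2) = a / 2
      rw [if_pos h1]
    rw [h3] at h2
    rcases hs with rfl | rfl <;> omega
  have hF : ∀ y ∈ ({a} : Finset ℤ), y % 2 = 1 := fun y hy => by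
    rw [Finset.mem_singleton] at hy; rw [hy]; exact hodd
  have hper : Function.IsPeriodicPt T p a := hpa
  have hB : Pool.Agent.Y964.LW.Bd ({a} : Finset ℤ) (∑ i ∈ range p, (T^[i] a).natAbs) := by
    intro y hy i
    rw [Finset.mem_singleton] at hy
    rw [hy]
    show |T^[i] a| ≤ _
    rw [← hper.iterate_mod_apply i]
    have h2 : (T^[i % p] a).natAbs ≤ ∑ i ∈ range p, (T^[i] a).natAbs :=
      Finset.single_le_sum (f := fun i => (T^[i] a).natAbs)
        (fun _ _ => Nat.zero_le _) (Finset.mem_range.2 (Nat.mod_lt _ hp))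
    rw [Int.abs_eq_natAbs]
    exact_mod_cast h2
  -- the merging set is the set of the integers which reach `a`
  have hreach : ∀ n : ℤ, Mer n a ↔ ∃ k, T^[k] n = a := by
    intro n
    constructor
    · rintro ⟨i, j, hij⟩
      have hcp : ∀ m, T^[p * m] a = a := by
        intro m
        rw [Function.iterate_mul]
        exact Function.iterate_fixed hpa m
      refine ⟨p * j - j + i, ?_⟩
      have hle : j ≤ p * j := Nat.le_mul_of_pos_left j hp
      rw [Function.iterate_add_apply, hij, ← Function.iterate_add_apply,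
        Nat.sub_add_cancel hle, hcp]
    · rintro ⟨k, hk⟩; exact ⟨k, 0, hk⟩
  have hE : Pool.Agent.H499R2.ND.Dn (fun n : ℕ => ∃ k : ℕ, Pool.Agent.W26.HN.E {a} k (s * n)) d := by
    refine Pool.Agent.H499R2.LT.Dn_iff (fun n _ => ?_) (Pool.Agent.Y964.LW.dn_side hs h)
    show Mer (s * (n : ℤ)) a ↔ ∃ k : ℕ, Pool.Agent.W26.HN.E {a} k (s * n)
    rw [hreach]
    symm
    constructor
    · rintro ⟨k, hk⟩; exact ⟨k, Finset.mem_singleton.1 hk.1⟩
    · rintro ⟨k, hk⟩
      obtain ⟨j, _, hj⟩ := Pool.Agent.W26.HN.exists_E (F := {a}) (x := s * (n : ℤ)) (k := k)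
        (Finset.mem_singleton.2 hk)
      exact ⟨j, hj⟩
  have hV : ∀ (k : ℕ) (n : ℤ), Pool.Agent.W26.HN.E {a} k n ↔ Visits a k n := by
    intro k n
    unfold Pool.Agent.W26.HN.E Visits
    constructor
    · rintro ⟨h1, h2⟩
      exact ⟨cast_iter.2 (Finset.mem_singleton.1 h1), fun i hi h3 =>
        h2 i hi (Finset.mem_singleton.2 (cast_iter.1 h3))⟩
    · rintro ⟨h1, h2⟩
      exact ⟨Finset.mem_singleton.2 (cast_iter.1 h1), fun i hi h3 =>
        h2 i hi (cast_iter.2 (Finset.mem_singleton.1 h3))⟩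
  obtain ⟨h0, h1, hRL, hlaw⟩ := Pool.Agent.Y964.LW.rel_entr_k hs hF hB hE
  refine ⟨fun q b hq => ⟨?_, fun x => ?_⟩, fun η hη => ?_⟩
  · refine rel_of (Pool.Agent.Y964.LW.RL_congr 0 (fun n _ => exists_congr fun k => ?_) (hlaw q b 0 hq).2.1)
    rw [hV]
  · have h5 := ((hlaw q b 0 hq).2.2 x).2
    have e : d / (q : ℝ) * Pool.Agent.H499R2.ND.Phi x = d * WanderingInSemigroups.Phi x / q := by
      unfold WanderingInSemigroups.Phi
      rw [← Pool.Agent.H499R2.ND.phi_cdf]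
      ring
    rw [e] at h5
    refine rel_of (Pool.Agent.Y964.LW.RL_congr 0 (fun n _ => exists_congr fun k => ?_) h5)
    rw [hV]
    unfold bound
    rw [log_abs hs]
    exact Iff.rfl
  · have hrr := Pool.Agent.H499R2.HL.rr_pos
    have hl3 : 0 < Real.log 3 := Real.log_pos (by norm_num)
    have h6 := Pool.Agent.Y964.LW.lln2 (P := fun n : ℕ => ∃ k, Pool.Agent.W26.HN.E {a} k (s * (n : ℤ)))
      (f := fun k n => Pool.Agent.W26.HN.E {a} k (s * (n : ℤ)))
      (g := fun k _ => (k : ℝ))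
      (α := 2 / Real.log (4 / 3))
      (σ := Real.log 3 * Pool.Agent.H499R2.HL.rr) (δ := d) (η := η) (by positivity) h0 h1 hη (fun x => by
        have h7 := ((hlaw 1 0 0 le_rfl).2.2 x).2
        have e1 : d / ((1 : ℕ) : ℝ) * Pool.Agent.H499R2.ND.Phi x = d * Pool.Agent.H499R2.ND.Phi x := by simp
        rw [e1] at h7
        refine Pool.Agent.Y964.LW.RL_congr 0 (fun n _ => exists_congr fun k => and_congr_right fun _ => ?_) h7
        rw [← Pool.Agent.Y964.LW.bk_thr]
        simp [Int.modEq_one]) hRL (fun n h => h)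
    refine rel_of (Pool.Agent.Y964.LW.RL_congr 0 (fun n _ => exists_congr fun k => ?_) h6)
    rw [hV, log_abs hs]

/-- WANDERING DOMAINS AND BASINS ALONG MULTIPLICATIVE SETS AND FUNCTIONS.
Let `s = 1` or `s = -1`. The integers of sign `s` in wandering domains of `f₀` have a natural density
`w`, and Q1 holds for the integers of sign `s` if and only if `w = 0`. In the sense of `Relative` (sums
of multiplicative functions `g n`, `|g| ≤ h`, over the integers `s n`, `n ≤ N`, in the reduced residue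
classes modulo `Q`, with errors `o(∑ h)`, uniformly in `g` and `h`):
(1) the integers in wandering domains have frequency `w`;
(2) the integers whose orbits merge with the orbit of `a` have frequency `β a > 0`, for every `a` of
sign `s`; this is their natural density;
(3) if `a` is periodic, the integers in the components attracted to the cycle of `a` have frequency
`β a`;
(4) if `a` is the least element (in absolute value) of its cycle, the integers whose orbits visit `a`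
for the first time at a time `≡ b` modulo `q` have frequency `β a / q`, and those for which this time
is, moreover, at most `2 log |n| / log (4/3) + x log 3 √(2 log |n| / (log (4/3))^3)` have frequency
`β a Φ(x) / q`, `Φ` the standard normal distribution function; for every `η > 0` those for which it
is `(2 / log (4/3) ± η) log |n|` have frequency `β a`.
The frequencies `β a` of all cycles and `w` add up to `1`.
(5) SETS. Let `S` have the relative frequency `l`. For all `c > 0`, `x₀`, `ε > 0`, `Q`, `r` prime to `Q`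
and `N ≥ N₀`, for every multiplicative set `E` of positive integers with at least `c x / log x` primes
up to `x` for `x ≥ x₀`, the number of the `n ≤ N` in `E` with `s n ∈ S` and `n ≡ r` modulo `Q` is `l`
times the number of the `n ≤ N` in `E` with `n ≡ r` modulo `Q`, up to `ε` times the number of all
`n ≤ N` in `E` (uniformly in `E`); and `S` has relative density `l` in `s E`. In particular Q1 holds
for the integers of sign `s` if and only if the relative density of the integers in wandering domains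
among the `s n`, `n ∈ E`, is `0`, for one (or every) such `E`.
(6) The sums of two squares, and the integers composed of primes in given residue classes modulo `q`
(at least one of them prime to `q`), are such sets `E`. -/
theorem result (s : ℤ) (hs : s = 1 ∨ s = -1) : ∃ (w : ℝ) (β : ℤ → ℝ),
    (HasDensity s WanderingIntegers w ∧ Relative s WanderingIntegers w ∧
      (w = 0 ↔ ∀ n : ℤ, 0 < s * n → n ∉ WanderingIntegers)) ∧
    (∀ a : ℤ, 0 < s * a → 0 < β a ∧
      HasDensity s {n | ∃ i j : ℕ, f₀^[i] (n : ℂ) = f₀^[j] (a : ℂ)} (β a) ∧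
      Relative s {n | ∃ i j : ℕ, f₀^[i] (n : ℂ) = f₀^[j] (a : ℂ)} (β a)) ∧
    (∀ (a : ℤ) (p : ℕ), 0 < s * a → 0 < p → f₀^[p] (a : ℂ) = a →
      Relative s (BasinIntegers a p) (β a)) ∧
    (∀ a : ℤ, IsCycleRep s a →
      (∀ (q : ℕ) (b : ℤ), 1 ≤ q →
        Relative s {n | ∃ k : ℕ, Visits a k n ∧ (k : ℤ) ≡ b [ZMOD q]} (β a / q) ∧
        ∀ x : ℝ, Relative s {n | ∃ k : ℕ, Visits a k n ∧ (k : ℝ) ≤ bound x n ∧ (k : ℤ) ≡ b [ZMOD q]}
          (β a * Phi x / q)) ∧
      (∀ η : ℝ, 0 < η → Relative s {n | ∃ k : ℕ, Visits a k n ∧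
        |(k : ℝ) - 2 / Real.log (4 / 3) * Real.log (|(n : ℝ)|)| ≤ η * Real.log |(n : ℝ)|} (β a))) ∧
    HasSum (fun a : {a : ℤ // IsCycleRep s a} => β a) (1 - w) ∧
    (∀ (S : Set ℤ) (l : ℝ), Relative s S l →
      (∀ (c : ℝ) (x₀ : ℕ) (ε : ℝ) (Q r : ℕ), 0 < c → 0 < ε → 1 ≤ Q → r.Coprime Q →
        ∃ N₀ : ℕ, ∀ N : ℕ, N₀ ≤ N → ∀ E : Set ℕ, MultSet E → ManyPrimes c x₀ E →
        |({n : ℕ | n ≤ N ∧ n ∈ E ∧ n % Q = r % Q ∧ s * (n : ℤ) ∈ S}.ncard : ℝ) -
          l * {n : ℕ | n ≤ N ∧ n ∈ E ∧ n % Q = r % Q}.ncard| ≤ ε * {n : ℕ | n ≤ N ∧ n ∈ E}.ncard) ∧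
      (∀ (c : ℝ) (x₀ : ℕ) (E : Set ℕ), 0 < c → MultSet E → ManyPrimes c x₀ E →
        Tendsto (fun N : ℕ => ({n : ℕ | n ≤ N ∧ n ∈ E ∧ s * (n : ℤ) ∈ S}.ncard : ℝ) /
          {n : ℕ | n ≤ N ∧ n ∈ E}.ncard) atTop (𝓝 l))) ∧
    (∀ (c : ℝ) (x₀ : ℕ) (E : Set ℕ), 0 < c → MultSet E → ManyPrimes c x₀ E →
      (Tendsto (fun N : ℕ => ({n : ℕ | n ≤ N ∧ n ∈ E ∧ s * (n : ℤ) ∈ WanderingIntegers}.ncard : ℝ) /
        {n : ℕ | n ≤ N ∧ n ∈ E}.ncard) atTop (𝓝 0) ↔ ∀ n : ℤ, 0 < s * n → n ∉ WanderingIntegers)) ∧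
    (MultSet TwoSquares ∧ ∃ c : ℝ, 0 < c ∧ ∃ x₀ : ℕ, ManyPrimes c x₀ TwoSquares) ∧
    (∀ (q a : ℕ) (A : Set ℕ), 1 ≤ q → a ∈ A → a.Coprime q → MultSet (PrimesIn q A) ∧
      ∃ c : ℝ, 0 < c ∧ ∃ x₀ : ℕ, ManyPrimes c x₀ (PrimesIn q A)) := by
  obtain ⟨w, β, hw, hw0, hmer, hbas, hsum⟩ := Pool.Agent.H723R2.LSW.main hs
  have hmerD : ∀ a : ℤ, 0 < s * a → HasDensity s {n | Mer n a} (β a) := by
    intro a ha
    rw [← merge_eq]
    exact (hmer a ha).2
  have hwI : Relative s WanderingIntegers w := by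
    refine inv_rel hs (fun n => ?_) hw
    show IsWanderingDomain Pool.Agent.H723R2.LSW.f₀ (FatouComponent Pool.Agent.H723R2.LSW.f₀ n) ↔
      IsWanderingDomain Pool.Agent.H723R2.LSW.f₀ (FatouComponent Pool.Agent.H723R2.LSW.f₀ ((T n : ℤ) : ℂ))
    rw [Pool.Agent.H723R2.LSW.wandering_iff, Pool.Agent.H723R2.LSW.wandering_iff]
    exact wild_T n
  have hmerR : ∀ a : ℤ, 0 < s * a → Relative s {n | Mer n a} (β a) := fun a ha =>
    inv_rel hs (fun n => mer_T a n) (hmerD a ha)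
  have hlim : ∀ (S : Set ℤ) (l : ℝ), Relative s S l → ∀ (c : ℝ) (x₀ : ℕ) (E : Set ℕ), 0 < c → MultSet E →
      ManyPrimes c x₀ E →
      Tendsto (fun N : ℕ => ({n : ℕ | n ≤ N ∧ n ∈ E ∧ s * (n : ℤ) ∈ S}.ncard : ℝ) /
          {n : ℕ | n ≤ N ∧ n ∈ E}.ncard) atTop (𝓝 l) := by
    intro S l hS c x₀ E hc hE hp
    exact Pool.Agent.Y964.LW.Rel.lim (P := fun n : ℕ => s * (n : ℤ) ∈ S) hS c x₀ E hc hE hp
  refine ⟨w, β, ⟨hw, hwI, hw0⟩, fun a ha => ⟨(hmer a ha).1, (hmer a ha).2, ?_⟩, fun a p ha hp hpa => ?_,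
    fun a ha => visits_rel hs ha (hmerD a ha.1), hsum, fun S l hS => ⟨?_, hlim S l hS⟩, ?_, ?_, ?_⟩
  · rw [merge_eq]; exact hmerR a ha
  · have e : BasinIntegers a p = {n | Mer n a} := by
      ext n
      exact Pool.Agent.H723R2.LSW.basin_iff hp (cast_iter.1 hpa)
    rw [e]
    exact hmerR a ha
  · intro c x₀ ε Q r hc hε hQ hr
    exact Pool.Agent.Y964.LW.Rel.sets (P := fun n : ℕ => s * (n : ℤ) ∈ S) hS c x₀ ε Q r hc hε hQ hr
  · intro c x₀ E hc hE hp
    have h1 := hlim _ w hwI c x₀ E hc hE hp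
    constructor
    · intro h2
      exact hw0.1 (tendsto_nhds_unique h1 h2)
    · intro h2
      rw [← hw0.2 h2]
      exact h1
  · exact Pool.Agent.Y964.LW.two_sq (fun n => Iff.rfl)
  · intro q a A hq haA ha
    exact Pool.Agent.Y964.LW.primes_in hq (fun n => Iff.rfl) haA ha

end Pool.Agent.Results.MP_071ec9_an.WanderingInSemigroups
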