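import Mathlib
import Pool.Agent.Results.MP_071ec9_an.WanderingInSemigroups
import Pool.Agent.Y964.LW.D3

set_option autoImplicit false

/-!
Neighbours and affine images of the integers of sparse multiplicative sets under the entire
interpolation `f₀` of the `3x+1` function: coalescence of the orbits of `n` and `2^e 3^i n + B`, and the
frequencies of wandering domains and basins along the affine images `2^e 3^i E + B` of multiplicative
sets `E` of density zero (for example along the integers `x² + y² + 1`).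

All definitions are those of `Pool.Agent.Results.MP_071ec9_an.WanderingInSemigroups`.
-/

namespace Pool.Agent.Results.MP_071ec9_an.NeighboursInSemigroups

open Filter Topology Finset
open Pool.Agent.H384R2.Fatou
open Pool.Agent.Results.MP_071ec9_an.WanderingInSemigroups

/-- The affine image `2 ^ e 3 ^ i n + B` of `n`. -/
def aff (e i : ℕ) (B n : ℤ) : ℤ := 2 ^ e * 3 ^ i * n + B

/-- After `t` steps, for some `t` with `4 ^ t ≤ |x|`, the orbit of `x` is where the orbit of `y` is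
after `t + e` steps. -/
def Together (e : ℕ) (x y : ℤ) : Prop := ∃ t : ℕ, 4 ^ t ≤ |x| ∧ f₀^[t + e] (y : ℂ) = f₀^[t] (x : ℂ)

open Pool.Agent.H723R2.LSW (T Mer Wild cast_iter)
open Pool.Agent.Y964.LW (RL RL_negl Negl Coal FV)

theorem f₀_int (n : ℤ) : f₀ (n : ℂ) = ((T n : ℤ) : ℂ) := by
  have h : f₀^[1] (n : ℂ) = ((T^[1] n : ℤ) : ℂ) := cast_iter.2 rfl
  exact h

theorem inv_iter {S : Set ℤ} (hS : ∀ n : ℤ, n ∈ S ↔ T n ∈ S) (k : ℕ) : ∀ n : ℤ, n ∈ S ↔ T^[k] n ∈ S := by
  induction k with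
  | zero => intro n; exact Iff.rfl
  | succ k ih =>
    intro n
    rw [Function.iterate_succ_apply, hS n]
    exact ih (T n)

theorem abs_side {s : ℤ} (hs : s = 1 ∨ s = -1) (n : ℕ) : |s * (n : ℤ)| = n := by
  rw [abs_mul, Nat.abs_cast]
  rcases hs with rfl | rfl <;> simp

theorem together_iff {s : ℤ} (hs : s = 1 ∨ s = -1) (e : ℕ) (n : ℕ) (y : ℤ) :
    Together e (s * n) y ↔ ∃ t : ℕ, 4 ^ t ≤ n ∧ T^[t + e] y = T^[t] (s * n) := by
  unfold Together
  rw [abs_side hs]
  constructor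
  · rintro ⟨t, h1, h2⟩
    refine ⟨t, by exact_mod_cast h1, ?_⟩
    have h3 : f₀^[t] ((s * (n : ℤ) : ℤ) : ℂ) = ((T^[t] (s * (n : ℤ)) : ℤ) : ℂ) := cast_iter.2 rfl
    rw [h3] at h2
    exact cast_iter.1 h2
  · rintro ⟨t, h1, h2⟩
    refine ⟨t, by exact_mod_cast h1, ?_⟩
    have h3 : f₀^[t] ((s * (n : ℤ) : ℤ) : ℂ) = ((T^[t] (s * (n : ℤ)) : ℤ) : ℂ) := cast_iter.2 rfl
    rw [h3]
    exact cast_iter.2 h2

theorem visits_iff (a : ℤ) (k : ℕ) (n : ℤ) : Visits a k n ↔ FV a k n := by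
  unfold Visits FV
  constructor
  · rintro ⟨h1, h2⟩
    exact ⟨cast_iter.1 h1, fun j hj h3 => h2 j hj (cast_iter.2 h3)⟩
  · rintro ⟨h1, h2⟩
    exact ⟨cast_iter.2 h1, fun j hj h3 => h2 j hj (cast_iter.1 h3)⟩

theorem together_negl {s : ℤ} (hs : s = 1 ∨ s = -1) (e i : ℕ) (B : ℤ) :
    Negl (fun n => ¬ Together e (s * n) (aff e i B (s * n))) := by
  refine Pool.Agent.Y964.LW.Negl_not_iff (Pool.Agent.Y964.LW.aff_merge hs e i B) fun n hn h => hn ?_
  rw [together_iff hs]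
  exact h

/-- the affine images of invariant sets -/
theorem inv_aff {s : ℤ} (hs : s = 1 ∨ s = -1) {S : Set ℤ} (hS : ∀ n : ℤ, n ∈ S ↔ T n ∈ S) (e i : ℕ) (B : ℤ)
    (n : ℕ) (h : Together e (s * n) (aff e i B (s * n))) : aff e i B (s * n) ∈ S ↔ s * (n : ℤ) ∈ S := by
  rw [together_iff hs] at h
  obtain ⟨t, _, h2⟩ := h
  rw [inv_iter hS (t + e), h2, ← inv_iter hS t]

theorem rel_inv {s : ℤ} (hs : s = 1 ∨ s = -1) {S : Set ℤ} (hS : ∀ n : ℤ, n ∈ S ↔ T n ∈ S) {d : ℝ}
    (h : HasDensity s S d) (e i : ℕ) (B : ℤ) : Relative s {n | aff e i B n ∈ S} d := by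
  have h1 : RL (fun n : ℕ => s * (n : ℤ) ∈ S) d := Pool.Agent.Y964.LW.RL_inv' hs hS h
  refine rel_of (RL_negl h1 (together_negl hs e i B) fun n hn => ?_)
  rw [not_not] at hn
  exact (inv_aff hs hS e i B n hn).symm

theorem rel_same {s : ℤ} (hs : s = 1 ∨ s = -1) {S : Set ℤ} (hS : ∀ n : ℤ, n ∈ S ↔ T n ∈ S)
    (e i : ℕ) (B : ℤ) : Relative s {n | aff e i B n ∈ S ↔ n ∈ S} 1 := by
  refine rel_of ((together_negl hs e i B).one fun n hn => ?_)
  rw [not_not] at hn
  exact inv_aff hs hS e i B n hn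

open Pool.Agent.Y964.LW in
/-- relative laws in terms of the first visits -/
theorem visits_RL {s : ℤ} (hs : s = 1 ∨ s = -1) {a : ℤ} (ha : IsCycleRep s a) {d : ℝ}
    (h : HasDensity s {n | Mer n a} d) (q : ℕ) (b : ℤ) (hq : 1 ≤ q) :
    RL (fun n : ℕ => ∃ k : ℕ, FV a k (s * n) ∧ (k : ℤ) ≡ b [ZMOD q]) (d / q) ∧
    ∀ x : ℝ, RL (fun n : ℕ => ∃ k : ℕ, FV a k (s * n) ∧ (k : ℝ) ≤ bound x (s * n) ∧ (k : ℤ) ≡ b [ZMOD q])
        (d * WanderingInSemigroups.Phi x / q) := by
  obtain ⟨ha0, ⟨p, hp, hpa'⟩, hmin'⟩ := ha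
  have hpa : T^[p] a = a := cast_iter.1 hpa'
  have hmin : ∀ j : ℕ, s * a ≤ s * T^[j] a := fun j => hmin' j _ (cast_iter.2 rfl)
  have hodd : a % 2 = 1 := by
    by_contra hcon
    have h1 : a % 2 = 0 := by omega
    have h2 := hmin 1
    rw [Function.iterate_one] at h2
    have h3 : T a = a / 2 := by
      show (if a % 2 = 0 then a / 2 else (3 * a + 1) / 2) = a / 2
      rw [if_pos h1]
    rw [h3] at h2
    rcases hs with rfl | rfl <;> omega
  have hF : ∀ y ∈ ({a} : Finset ℤ), y % 2 = 1 := fun y hy => by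
    rw [Finset.mem_singleton] at hy; rw [hy]; exact hodd
  have hper : Function.IsPeriodicPt T p a := hpa
  have hB : Bd ({a} : Finset ℤ) (∑ i ∈ range p, (T^[i] a).natAbs) := by
    intro y hy i
    rw [Finset.mem_singleton] at hy
    rw [hy]
    show |T^[i] a| ≤ _
    rw [← hper.iterate_mod_apply i]
    have h2 : (T^[i % p] a).natAbs ≤ ∑ i ∈ range p, (T^[i] a).natAbs :=
      Finset.single_le_sum (f := fun i => (T^[i] a).natAbs)
        (fun _ _ => Nat.zero_le _) (Finset.mem_range.2 (Nat.mod_lt _ hp))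
    rw [Int.abs_eq_natAbs]
    exact_mod_cast h2
  have hreach : ∀ n : ℤ, Mer n a ↔ ∃ k, T^[k] n = a := by
    intro n
    constructor
    · rintro ⟨i, j, hij⟩
      have hcp : ∀ m, T^[p * m] a = a := by
        intro m
        rw [Function.iterate_mul]
        exact Function.iterate_fixed hpa m
      refine ⟨p * j - j + i, ?_⟩
      have hle : j ≤ p * j := Nat.le_mul_of_pos_left j hp
      rw [Function.iterate_add_apply, hij, ← Function.iterate_add_apply,
        Nat.sub_add_cancel hle, hcp]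
    · rintro ⟨k, hk⟩; exact ⟨k, 0, hk⟩
  have hE : Pool.Agent.H499R2.ND.Dn (fun n : ℕ => ∃ k : ℕ, Pool.Agent.W26.HN.E {a} k (s * n)) d := by
    refine Pool.Agent.H499R2.LT.Dn_iff (fun n _ => ?_) (dn_side hs h)
    show Mer (s * (n : ℤ)) a ↔ ∃ k : ℕ, Pool.Agent.W26.HN.E {a} k (s * n)
    rw [hreach]
    symm
    constructor
    · rintro ⟨k, hk⟩; exact ⟨k, Finset.mem_singleton.1 hk.1⟩
    · rintro ⟨k, hk⟩
      obtain ⟨j, _, hj⟩ := Pool.Agent.W26.HN.exists_E (F := {a}) (x := s * (n : ℤ)) (k := k)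
        (Finset.mem_singleton.2 hk)
      exact ⟨j, hj⟩
  have hV : ∀ (k : ℕ) (n : ℤ), Pool.Agent.W26.HN.E {a} k n ↔ FV a k n := by
    intro k n
    unfold Pool.Agent.W26.HN.E FV
    constructor
    · rintro ⟨h1, h2⟩
      exact ⟨Finset.mem_singleton.1 h1, fun i hi h3 => h2 i hi (Finset.mem_singleton.2 h3)⟩
    · rintro ⟨h1, h2⟩
      exact ⟨Finset.mem_singleton.2 h1, fun i hi h3 => h2 i hi (Finset.mem_singleton.1 h3)⟩
  obtain ⟨h0, h1, hRL, hlaw⟩ := rel_entr_k hs hF hB hE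
  refine ⟨?_, fun x => ?_⟩
  · refine RL_congr 0 (fun n _ => exists_congr fun k => ?_) (hlaw q b 0 hq).2.1
    rw [hV]
  · have h5 := ((hlaw q b 0 hq).2.2 x).2
    have e : d / (q : ℝ) * Pool.Agent.H499R2.ND.Phi x = d * WanderingInSemigroups.Phi x / q := by
      unfold WanderingInSemigroups.Phi
      rw [← Pool.Agent.H499R2.ND.phi_cdf]
      ring
    rw [e] at h5
    refine RL_congr 0 (fun n _ => exists_congr fun k => ?_) h5
    rw [hV]
    unfold bound
    rw [log_abs hs]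
    exact Iff.rfl

theorem hyp_of {c : ℝ} {x₀ : ℕ} {h : ArithmeticFunction ℝ} (hp : PrimeMean c x₀ h) :
    Pool.Agent.Y964.SE.HypD c x₀ h := by
  intro x hx
  refine (hp x hx).trans (le_of_eq ?_)
  apply sum_congr _ (fun _ _ => rfl)
  ext p
  rw [mem_filter, mem_Icc, Pool.Agent.Y964.SE.mem_PN]
  constructor
  · rintro ⟨h1, h2⟩; exact ⟨h1.2, h2⟩
  · rintro ⟨h1, h2⟩; exact ⟨⟨h2.one_lt.le, h1⟩, h2⟩

theorem coal_together {s : ℤ} (hs : s = 1 ∨ s = -1) {b : ℤ} {n : ℕ} (h : Coal s 0 b n) :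
    Together 0 (s * n) (s * n + b) := by
  rw [together_iff hs]
  obtain ⟨t, h1, h2, _⟩ := h
  refine ⟨t, h1, ?_⟩
  rw [pow_zero, one_mul] at h2
  exact h2

open scoped Classical in
/-- NEIGHBOURS AND AFFINE IMAGES OF THE INTEGERS IN SPARSE MULTIPLICATIVE SETS.
Let `s = 1` or `s = -1`. `Relative s S l` means: in the sums of multiplicative functions `g n`,
`|g| ≤ h ≤ 1`, over the integers `s n`, `n ≤ N`, also in reduced residue classes, the set `S` has
frequency `l`, with errors `o(∑ h)`, uniformly in the multiplicative `g`, `h` with many primes.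
(1) For all `e, i ≥ 0` and `B`, relatively almost all `n` merge with `2^e 3^i n + B`: for some `t` with
`4^t ≤ |n|` the orbit of `n` is after `t` steps where that of `2^e 3^i n + B` is after `t + e` steps;
and for every `a` the first visits of `a` in the orbit of `2^e 3^i n + B` and in that of `n` differ by
exactly `e` steps.
(2) Every set `S` of integers with `n ∈ S ↔ f₀ n ∈ S` has a natural density `d` among the integers of
sign `s`, and `2^e 3^i n + B ∈ S` has the frequency `d`, for all `e, i, B`; the integers `n` and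
`2^e 3^i n + B` are in `S` together, for relatively almost all `n`.
(3) In particular let `w` be the density of the integers of sign `s` in wandering domains (`w = 0` if
and only if Q1 holds for the sign `s`): `2^e 3^i n + B` is in a wandering domain with frequency `w`; it
is in a component attracted to the cycle of `a` with the frequency `β a > 0`, the density of the
integers merging with `a`; and if `a` is least in its cycle, then the first visit of `a` by the orbit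
of `2^e 3^i n + B` is at a time `k + e` with `k ≡ b` modulo `q` (and `k ≤ bound x n`) with frequency
`β a / q` (and `β a Φ(x) / q`).
(4) UNIFORM NEIGHBOURHOODS. For all `c, ε > 0` and `x₀` there are `θ > 0` and `N₀` such that for all
`N ≥ N₀` and all multiplicative `h` with values in `[0, 1]` and many primes: for every `b`,
`|b| ≤ N^θ`, the `n ≤ N` for which `s n` and `s n + b` do not come together have weight at most
`ε ∑ h`; and for every `L ≤ N^θ` the `n ≤ N` for which more than `ε (2 L + 1)` of the integers at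
distance `≤ L` from `s n` do not come together with `s n` have weight at most `ε ∑ h`.
(5) SETS. For every multiplicative set `E` with many primes the relative density of the `n ∈ E` for which
`2^e 3^i s n + B` is in a wandering domain is `w`; so Q1 holds for the sign `s` if and only if it is
`0`, for one (or every) `E`, `e`, `i`, `B`; the relative density of the `n ∈ E` such that `s n` and
`2^e 3^i s n + B` merge as in (1) is `1`.
(6) The sums of two squares, and the integers composed of primes in given residue classes modulo `q`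
(at least one of them prime to `q`), are such sets `E`. -/
theorem result (s : ℤ) (hs : s = 1 ∨ s = -1) : ∃ (w : ℝ) (β : ℤ → ℝ),
    (HasDensity s WanderingIntegers w ∧ (w = 0 ↔ ∀ n : ℤ, 0 < s * n → n ∉ WanderingIntegers) ∧
      (∀ a : ℤ, 0 < s * a → 0 < β a ∧
        HasDensity s {n | ∃ i j : ℕ, f₀^[i] (n : ℂ) = f₀^[j] (a : ℂ)} (β a)) ∧
      HasSum (fun a : {a : ℤ // IsCycleRep s a} => β a) (1 - w)) ∧
    (∀ (e i : ℕ) (B : ℤ), Relative s {n | Together e n (aff e i B n)} 1 ∧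
      ∀ a : ℤ, Relative s {n | ∀ k : ℕ, Visits a k n ↔ Visits a (k + e) (aff e i B n)} 1) ∧
    (∀ S : Set ℤ, (∀ n m : ℤ, f₀ (n : ℂ) = m → (n ∈ S ↔ m ∈ S)) → ∃ d : ℝ, HasDensity s S d ∧
      ∀ (e i : ℕ) (B : ℤ), Relative s {n | aff e i B n ∈ S} d ∧
        Relative s {n | aff e i B n ∈ S ↔ n ∈ S} 1) ∧
    (∀ (e i : ℕ) (B : ℤ), Relative s {n | aff e i B n ∈ WanderingIntegers} w ∧
      (∀ (a : ℤ) (p : ℕ), 0 < s * a → 0 < p → f₀^[p] (a : ℂ) = a →
        Relative s {n | aff e i B n ∈ BasinIntegers a p} (β a)) ∧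
      (∀ a : ℤ, IsCycleRep s a → ∀ (q : ℕ) (b : ℤ), 1 ≤ q →
        Relative s {n | ∃ k : ℕ, Visits a (k + e) (aff e i B n) ∧ (k : ℤ) ≡ b [ZMOD q]} (β a / q) ∧
        ∀ x : ℝ, Relative s {n | ∃ k : ℕ, Visits a (k + e) (aff e i B n) ∧ (k : ℝ) ≤ bound x n ∧
          (k : ℤ) ≡ b [ZMOD q]} (β a * Phi x / q))) ∧
    (∀ (c : ℝ) (x₀ : ℕ) (ε : ℝ), 0 < c → 0 < ε → ∃ (θ : ℝ) (N₀ : ℕ), 0 < θ ∧ ∀ N : ℕ, N₀ ≤ N →
      ∀ h : ArithmeticFunction ℝ, h.IsMultiplicative → (∀ n, 0 ≤ h n ∧ h n ≤ 1) → PrimeMean c x₀ h →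
      (∀ b : ℤ, |(b : ℝ)| ≤ (N : ℝ) ^ θ →
        ∑ n ∈ (Icc 1 N).filter (fun n : ℕ => ¬ Together 0 (s * n) (s * n + b)), h n ≤
          ε * ∑ n ∈ Icc 1 N, h n) ∧
      ∀ L : ℕ, (L : ℝ) ≤ (N : ℝ) ^ θ →
        ∑ n ∈ (Icc 1 N).filter (fun n : ℕ => ε * (2 * L + 1) <
          (#{b ∈ Icc (-(L : ℤ)) L | ¬ Together 0 (s * n) (s * n + b)} : ℝ)), h n ≤
          ε * ∑ n ∈ Icc 1 N, h n) ∧
    (∀ (c : ℝ) (x₀ : ℕ) (E : Set ℕ), 0 < c → MultSet E → ManyPrimes c x₀ E → ∀ (e i : ℕ) (B : ℤ),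
      Tendsto (fun N : ℕ => ({n : ℕ | n ≤ N ∧ n ∈ E ∧ aff e i B (s * n) ∈ WanderingIntegers}.ncard : ℝ) /
        {n : ℕ | n ≤ N ∧ n ∈ E}.ncard) atTop (𝓝 w) ∧
      (Tendsto (fun N : ℕ => ({n : ℕ | n ≤ N ∧ n ∈ E ∧ aff e i B (s * n) ∈ WanderingIntegers}.ncard : ℝ) /
        {n : ℕ | n ≤ N ∧ n ∈ E}.ncard) atTop (𝓝 0) ↔ ∀ n : ℤ, 0 < s * n → n ∉ WanderingIntegers) ∧
      Tendsto (fun N : ℕ => ({n : ℕ | n ≤ N ∧ n ∈ E ∧ Together e (s * n) (aff e i B (s * n))}.ncard : ℝ) /
        {n : ℕ | n ≤ N ∧ n ∈ E}.ncard) atTop (𝓝 1)) ∧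
    (MultSet TwoSquares ∧ ∃ c : ℝ, 0 < c ∧ ∃ x₀ : ℕ, ManyPrimes c x₀ TwoSquares) ∧
    (∀ (q a : ℕ) (A : Set ℕ), 1 ≤ q → a ∈ A → a.Coprime q → MultSet (PrimesIn q A) ∧
      ∃ c : ℝ, 0 < c ∧ ∃ x₀ : ℕ, ManyPrimes c x₀ (PrimesIn q A)) := by
  obtain ⟨w, β, hw, hw0, hmer, hbas, hsum⟩ := Pool.Agent.H723R2.LSW.main hs
  have hmerD : ∀ a : ℤ, 0 < s * a → HasDensity s {n | Mer n a} (β a) := by
    intro a ha
    rw [← merge_eq]
    exact (hmer a ha).2
  have hwT : ∀ n : ℤ, n ∈ WanderingIntegers ↔ T n ∈ WanderingIntegers := by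
    intro n
    show IsWanderingDomain Pool.Agent.H723R2.LSW.f₀ (FatouComponent Pool.Agent.H723R2.LSW.f₀ n) ↔
      IsWanderingDomain Pool.Agent.H723R2.LSW.f₀ (FatouComponent Pool.Agent.H723R2.LSW.f₀ ((T n : ℤ) : ℂ))
    rw [Pool.Agent.H723R2.LSW.wandering_iff, Pool.Agent.H723R2.LSW.wandering_iff]
    exact wild_T n
  have hwR := rel_inv hs hwT hw
  refine ⟨w, β, ⟨hw, hw0, fun a ha => hmer a ha, hsum⟩, fun e i B => ⟨?_, fun a => ?_⟩, fun S hS => ?_,
    fun e i B => ⟨hwR e i B, fun a p ha hp hpa => ?_, fun a ha q b hq => ⟨?_, fun x => ?_⟩⟩, ?_, ?_, ?_, ?_⟩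
  · exact rel_of ((together_negl hs e i B).one fun n hn => not_not.1 hn)
  · refine rel_of ((Pool.Agent.Y964.LW.aff_visit hs e i B a).one fun n hn => ?_)
    rw [not_not] at hn
    intro k
    rw [visits_iff, visits_iff]
    exact hn.2 k
  · have hST : ∀ n : ℤ, n ∈ S ↔ T n ∈ S := fun n => hS n (T n) (f₀_int n)
    obtain ⟨l, _, _, hl⟩ := Pool.Agent.H499R2.ND.dens_side (d := 1) odd_one
      (Int.isCoprime_iff_gcd_eq_one.2 (by norm_num)) hs (S := S) hST
    have h2 : HasDensity s S l := Pool.Agent.H499R2.ND.HD_ncard hs hl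
    exact ⟨l, h2, fun e i B => ⟨rel_inv hs hST h2 e i B, rel_same hs hST e i B⟩⟩
  · have e1 : BasinIntegers a p = {n | Mer n a} := by
      ext n
      exact Pool.Agent.H723R2.LSW.basin_iff hp (cast_iter.1 hpa)
    rw [e1]
    exact rel_inv hs (fun n => mer_T a n) (hmerD a ha) e i B
  · refine rel_of (RL_negl (visits_RL hs ha (hmerD a ha.1) q b hq).1
      (Pool.Agent.Y964.LW.aff_visit hs e i B a) fun n hn => ?_)
    rw [not_not] at hn
    refine exists_congr fun k => ?_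
    rw [visits_iff, hn.2 k]
    exact Iff.rfl
  · refine rel_of (RL_negl ((visits_RL hs ha (hmerD a ha.1) q b hq).2 x)
      (Pool.Agent.Y964.LW.aff_visit hs e i B a) fun n hn => ?_)
    rw [not_not] at hn
    refine exists_congr fun k => ?_
    rw [visits_iff, hn.2 k]
    exact Iff.rfl
  · intro c x₀ ε hc hε
    obtain ⟨θ1, N1, hθ1, h1⟩ := Pool.Agent.Y964.LW.coal_unif hc x₀ hε
    obtain ⟨θ2, N2, hθ2, h2⟩ := Pool.Agent.Y964.LW.coal_most hc x₀ hε
    refine ⟨min θ1 θ2, max (max N1 N2) 1, lt_min hθ1 hθ2, fun N hN h hm h01 hp => ⟨fun b hb => ?_, fun L hL => ?_⟩⟩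
    · have hN1 : (1 : ℝ) ≤ N := by exact_mod_cast (le_max_right _ _).trans hN
      have h3 := h1 N (((le_max_left _ _).trans (le_max_left _ _)).trans hN) s hs b
        (hb.trans (Real.rpow_le_rpow_of_exponent_le hN1 (min_le_left _ _))) h (fun n => (h01 n).1)
        (fun n => (h01 n).2) hm.1 (fun m n hmn => hm.2 hmn) (hyp_of hp)
      refine le_trans ?_ h3
      rw [sum_filter]
      apply sum_le_sum
      intro n _
      by_cases hC : Coal s 0 b n
      · rw [if_neg (not_not.2 (coal_together hs hC)), if_neg (not_not.2 hC)]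
      · rw [if_pos hC]
        by_cases hT : Together 0 (s * n) (s * n + b)
        · rw [if_neg (not_not.2 hT)]; exact (h01 n).1
        · rw [if_pos hT]
    · have hN1 : (1 : ℝ) ≤ N := by exact_mod_cast (le_max_right _ _).trans hN
      have h3 := h2 N (((le_max_right _ _).trans (le_max_left _ _)).trans hN) s hs L
        (hL.trans (Real.rpow_le_rpow_of_exponent_le hN1 (min_le_right _ _))) h (fun n => (h01 n).1)
        (fun n => (h01 n).2) hm.1 (fun m n hmn => hm.2 hmn) (hyp_of hp)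
      refine le_trans ?_ h3
      rw [sum_filter]
      apply sum_le_sum
      intro n _
      have hcard : (#{b ∈ Icc (-(L : ℤ)) L | ¬ Together 0 (s * n) (s * n + b)} : ℝ) ≤
          (#{b ∈ Icc (-(L : ℤ)) L | ¬ Coal s 0 b n} : ℝ) := by
        have : #{b ∈ Icc (-(L : ℤ)) L | ¬ Together 0 (s * n) (s * n + b)} ≤
            #{b ∈ Icc (-(L : ℤ)) L | ¬ Coal s 0 b n} := by
          apply card_le_card
          intro b hb
          rw [mem_filter] at hb ⊢
          exact ⟨hb.1, fun hC => hb.2 (coal_together hs hC)⟩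
        exact_mod_cast this
      split_ifs with h4 h5
      · exact le_rfl
      · exact absurd (h4.trans_le hcard) h5
      · exact (h01 n).1
      · exact le_rfl
  · intro c x₀ E hc hE hp e i B
    have h1 := Pool.Agent.Y964.LW.Rel.lim (P := fun n : ℕ => aff e i B (s * (n : ℤ)) ∈ WanderingIntegers)
      (hwR e i B) c x₀ E hc hE hp
    have h2 := Pool.Agent.Y964.LW.Rel.lim (P := fun n : ℕ => Together e (s * n) (aff e i B (s * n)))
      (rel_of (S := {n | Together e n (aff e i B n)}) ((together_negl hs e i B).one fun n hn => not_not.1 hn))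
      c x₀ E hc hE hp
    refine ⟨h1, ⟨fun h3 => hw0.1 (tendsto_nhds_unique h1 h3), fun h3 => ?_⟩, h2⟩
    rw [← hw0.2 h3]
    exact h1
  · exact Pool.Agent.Y964.LW.two_sq (fun n => Iff.rfl)
  · intro q a A hq haA ha
    exact Pool.Agent.Y964.LW.primes_in hq (fun n => Iff.rfl) haA ha

end Pool.Agent.Results.MP_071ec9_an.NeighboursInSemigroups
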