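import Mathlib
import Pool.Agent.Y282.WD.Deg
import Pool.Agent.Y282.WD.Full
import Pool.Agent.Y151.WD.Tail
import Pool.Agent.Y514.WD.Sch
import Pool.Agent.Y804.WD.Loop
import Pool.Agent.Y811.WD.Back
import Pool.Agent.Y888.WD.Near
import Pool.Agent.Y319.WD.Har
import Pool.Agent.Y98.WD.Inv

set_option autoImplicit false

/-! The wandering domains of the entire function `f₀` which contain integers: they are bounded, without
holes, asymptotically round discs about the integers, and `f₀` has degree two on them. -/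

open Filter Topology Metric Set

namespace Pool.Agent.Results.MP_071ec9_an.RoundDomains

open Pool.Agent.H384R2.Fatou

/-- The entire function of Letherman, Schleicher and Wood; `f₀ n = T n` for every integer `n`. -/
noncomputable def f₀ (z : ℂ) : ℂ :=
  z / 2 + (z + 1 / 2) * ((1 - Complex.cos (Real.pi * z)) / 2) +
    1 / Real.pi * (1 / 2 - Complex.cos (Real.pi * z)) * Complex.sin (Real.pi * z)

/-- The `3x+1` function. -/
def T (n : ℤ) : ℤ := if n % 2 = 0 then n / 2 else (3 * n + 1) / 2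

/-- The Fatou component of `f₀` which contains the integer `n`. -/
def U (n : ℤ) : Set ℂ := FatouComponent f₀ (n : ℂ)

/-- The radius `ρ(n) = exp (- ∑_{i ≥ 0} 2^{-(i+1)} log (π²/4 · |T^i n + 1/2|))`. -/
noncomputable def radius (n : ℤ) : ℝ :=
  Real.exp (-∑' i : ℕ, Real.log (Real.pi ^ 2 / 4 * |((T^[i] n : ℤ) : ℝ) + 1 / 2|) / 2 ^ (i + 1))

/-- There is `C` such that the following holds for all integers `n`, with `xₖ = T^k n = f₀^k n`.

The component `U n` of `n` is a wandering domain iff the components `U xₖ` shrink: for every `ε > 0`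
all but finitely many are contained in the disc of radius `ε` about `xₖ`. If it is a wandering domain:
* `|xₖ| → ∞`, all the `U xₖ` are bounded, have no holes (a bounded open set with frontier in `U xₖ` is
  contained in `U xₖ`), and `f₀ (U xₖ) = U xₖ₊₁`;
* the orbits of all points `z` of `U n` approach the orbit of `n` doubly exponentially:
  `|f₀^k z - xₖ| ≤ q^(2^k)` for all large `k`, where `q < 1` depends on `z`;
* if `|xⱼ| ≥ M ≥ C` for all `j ≥ k` then `U xₖ` contains the disc of radius `(1 - C/M²) ρ(xₖ)` and is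
  contained in the closed disc of radius `(1 + C/M²) ρ(xₖ)` about `xₖ`; `f₀` has no critical point in
  `U xₖ` except `xₖ`, and every point of `U xₖ₊₁` except `xₖ₊₁` has exactly two preimages in `U xₖ`.
For all integers `n` the radius satisfies `2/π² ≤ |n + 1/2| ρ(n) ≤ 12/π²`. -/
theorem result : ∃ C : ℝ, 1 ≤ C ∧ ∀ n : ℤ,
    2 / Real.pi ^ 2 ≤ |(n : ℝ) + 1 / 2| * radius n ∧
    |(n : ℝ) + 1 / 2| * radius n ≤ 12 / Real.pi ^ 2 ∧
    (IsWanderingDomain f₀ (U n) ↔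
      ∀ ε : ℝ, 0 < ε → ∀ᶠ k : ℕ in atTop, U (T^[k] n) ⊆ ball ((T^[k] n : ℤ) : ℂ) ε) ∧
    (IsWanderingDomain f₀ (U n) →
      Tendsto (fun k : ℕ => |T^[k] n|) atTop atTop ∧
      (∀ k : ℕ, Bornology.IsBounded (U (T^[k] n)) ∧
        (∀ V : Set ℂ, IsOpen V → Bornology.IsBounded V → frontier V ⊆ U (T^[k] n) →
          V ⊆ U (T^[k] n)) ∧
        f₀ '' U (T^[k] n) = U (T^[k + 1] n)) ∧
      (∀ z ∈ U n, ∃ q : ℝ, 0 ≤ q ∧ q < 1 ∧
        ∀ᶠ k : ℕ in atTop, ‖f₀^[k] z - ((T^[k] n : ℤ) : ℂ)‖ ≤ q ^ (2 ^ k)) ∧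
      ∀ (k : ℕ) (M : ℝ), C ≤ M → (∀ j : ℕ, k ≤ j → M ≤ |((T^[j] n : ℤ) : ℝ)|) →
        ball ((T^[k] n : ℤ) : ℂ) ((1 - C / M ^ 2) * radius (T^[k] n)) ⊆ U (T^[k] n) ∧
        U (T^[k] n) ⊆ closedBall ((T^[k] n : ℤ) : ℂ) ((1 + C / M ^ 2) * radius (T^[k] n)) ∧
        (∀ z ∈ U (T^[k] n), z ≠ ((T^[k] n : ℤ) : ℂ) → deriv f₀ z ≠ 0) ∧
        ∀ w ∈ U (T^[k + 1] n), w ≠ ((T^[k + 1] n : ℤ) : ℂ) →
          {z | z ∈ U (T^[k] n) ∧ f₀ z = w}.ncard = 2) := by
  obtain ⟨C, hC1, hC⟩ := Pool.Agent.Y282.WD.shape Pool.Agent.Y888.WD.t_NEAR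
    Pool.Agent.Y888.WD.t_LOW Pool.Agent.Y151.WD.t_TAIL Pool.Agent.Y514.WD.sch
    Pool.Agent.Y319.WD.t_HAR Pool.Agent.Y804.WD.loop Pool.Agent.Y811.WD.t_BACK
    Pool.Agent.Y98.WD.t_INV
  refine ⟨C, hC1, fun n => ?_⟩
  have hT := Pool.Agent.Y151.WD.t_TAIL
  have hpi : 0 < Real.pi ^ 2 := by positivity
  have hiff : IsWanderingDomain f₀ (U n) ↔ Pool.Agent.H723R2.LSW.Wild n :=
    Pool.Agent.H723R2.LSW.wandering_iff n
  obtain ⟨hr0, -, hr1, hr2⟩ := hT.2 n
  have hbt : Pool.Agent.Y282.WD.bt n = Real.pi ^ 2 / 4 * |(n : ℝ) + 1 / 2| := rfl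
  have hrho : radius n = Pool.Agent.Y282.WD.rho n := rfl
  rw [hbt, ← hrho] at hr1 hr2
  refine ⟨?_, ?_, ?_, ?_⟩
  · rw [div_le_iff₀ hpi]; linarith
  · rw [le_div_iff₀ hpi]; linarith
  · rw [hiff]
    refine ⟨fun hw => (hC n hw).1, fun h => ?_⟩
    by_contra hcon
    exact Pool.Agent.Y282.WD.tame_not_shrink hcon h
  · intro hwd
    have hw := hiff.1 hwd
    obtain ⟨-, h2, h3, -⟩ := hC n hw
    refine ⟨?_, fun k => ⟨(h2 k).1, fun V hVo hVb hVf => ?_, (h2 k).2⟩, h3, fun k M hM hj => ?_⟩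
    · have h := Pool.Agent.H723R2.LSW.wild_tendsto hw
      rw [Filter.tendsto_atTop] at h ⊢
      intro b
      filter_upwards [h b] with j hj
      exact_mod_cast hj
    · exact Pool.Agent.Y282.WD.full Pool.Agent.Y514.WD.sch
        (Pool.Agent.H723R2.LSW.wild_iter hw k) hVo hVb hVf
    · have hj' : ∀ j : ℕ, M ≤ |((T^[j] (T^[k] n) : ℤ) : ℝ)| := by
        intro j
        rw [← Function.iterate_add_apply]
        exact hj (j + k) (by omega)
      obtain ⟨-, -, -, h4⟩ := hC (T^[k] n) (Pool.Agent.H723R2.LSW.wild_iter hw k)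
      have h5 := h4 M hM hj'
      rw [Function.iterate_succ_apply']
      exact h5

end Pool.Agent.Results.MP_071ec9_an.RoundDomains
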